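import Pool.Agent.Q283.EN.Stm
import Pool.Agent.Q14.LK.Share

/-!
# Project EN of helper283: job TRF (helper265), from the tables to the ensemble
-/

set_option autoImplicit false

namespace Pool.Agent.Q265.EN

open NumberField IsDedekindDomain Filter Topology Finset
open Pool.Agent.Q7.LK
open Pool.Agent.Q283.LQ (Sm Box Nest nS)

theorem trf_final {T TP B G GP M ε e : ℝ} (hT : 1 ≤ T) (hB : 0 < B) (hM : 0 < M)
    (he : 0 < e) (he1 : e ≤ 1 / M / 2) (he2 : e ≤ ε / (4 * M)) (hε : 0 < ε) (hTP0 : 0 ≤ TP) (hTP : TP ≤ T)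
    (hG1 : T * ((1 / M - e) * B) ≤ G) (hG2 : G ≤ T * ((1 / M + e) * B))
    (hP1 : TP * ((1 / M - e) * B) ≤ GP) (hP2 : GP ≤ TP * ((1 / M + e) * B)) :
    |GP * T - TP * G| ≤ ε * G * T := by
  have h1 : ε * (T * ((1 / M - e) * B)) * T ≤ ε * G * T := by
    have := mul_le_mul_of_nonneg_left hG1 hε.le
    exact mul_le_mul_of_nonneg_right this (by linarith)
  have h2 : 2 * e ≤ ε * (1 / M - e) := by
    have h3 : ε * (1 / M / 2) ≤ ε * (1 / M - e) := mul_le_mul_of_nonneg_left (by linarith) hε.le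
    have h4 : 2 * (ε / (4 * M)) = ε * (1 / M / 2) := by
      field_simp
      ring
    linarith
  have hTT : 0 ≤ T * T * B := by positivity
  have h5 : T * T * B * (2 * e) ≤ T * T * B * (ε * (1 / M - e)) := mul_le_mul_of_nonneg_left h2 hTT
  have h6 : TP * T * B * (2 * e) ≤ T * T * B * (2 * e) := by
    have h7 : TP * T ≤ T * T := mul_le_mul_of_nonneg_right hTP (by linarith)
    have h8 : TP * T * B ≤ T * T * B := mul_le_mul_of_nonneg_right h7 hB.le
    exact mul_le_mul_of_nonneg_right h8 (by linarith)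
  have hT0 : 0 ≤ T := by linarith
  rw [abs_le]
  constructor
  · have a1 := mul_le_mul_of_nonneg_right hP1 hT0
    have a2 := mul_le_mul_of_nonneg_left hG2 hTP0
    have e1 : TP * ((1 / M - e) * B) * T = TP * (T * ((1 / M + e) * B)) - TP * T * B * (2 * e) := by ring
    have e2 : ε * (T * ((1 / M - e) * B)) * T = T * T * B * (ε * (1 / M - e)) := by ring
    linarith
  · have a1 := mul_le_mul_of_nonneg_right hP2 hT0
    have a2 := mul_le_mul_of_nonneg_left hG1 hTP0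
    have e1 : TP * ((1 / M + e) * B) * T = TP * (T * ((1 / M - e) * B)) + TP * T * B * (2 * e) := by ring
    have e2 : ε * (T * ((1 / M - e) * B)) * T = T * T * B * (ε * (1 / M - e)) := by ring
    linarith

theorem trf (hNEST : Pool.Agent.Q7.LK.S_NEST) (hSH1 : Pool.Agent.Q7.LK.S_SH1) : Pool.Agent.Q283.EN.S_TRF := by
  intro p _ F _ _ ζ hζ y f u r π g hb D0 ψ w hD0 hcls' k z hk2 hz ε hε
  classical
  have hp : p.Prime := Fact.out
  have hp1 : (1 : ℝ) < p := by exact_mod_cast hp.one_lt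
  have hp0 : (0 : ℝ) < p := by linarith
  obtain ⟨M, hM⟩ : ∃ M : ℝ, M = (p : ℝ) ^ (k * f + k * (k - 1) / 2) := ⟨_, rfl⟩
  have hM0 : 0 < M := by rw [hM]; positivity
  obtain ⟨e, he⟩ : ∃ e : ℝ, e = min (1 / M / 2) (ε / (4 * M)) := ⟨_, rfl⟩
  have he0 : 0 < e := by
    rw [he]
    refine lt_min (by positivity) (by positivity)
  have he1 : e ≤ 1 / M / 2 := by rw [he]; exact min_le_left _ _
  have he2 : e ≤ ε / (4 * M) := by rw [he]; exact min_le_right _ _
  have hnest := Pool.Agent.Q14.LK.nest_all k (univ : Finset (Tab p f k)) (fun τ X =>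
    (Box y X : Set (Fin k → HeightOneSpectrum (𝓞 F))).Finite ∧
    0 < ((Box y X : Set (Fin k → HeightOneSpectrum (𝓞 F))).ncard : ℝ) ∧
    |({q ∈ (Box y X : Set (Fin k → HeightOneSpectrum (𝓞 F))) | Tb ζ u π τ q}.ncard : ℝ) /
      ((Box y X : Set (Fin k → HeightOneSpectrum (𝓞 F))).ncard : ℝ) -
        1 / (p : ℝ) ^ (k * f + k * (k - 1) / 2)| ≤ e) fun τ _ => hNEST p F ζ hζ y f u r π g hb k τ e he0
  -- a table with sum ψ
  obtain ⟨τ0, hτ0⟩ : ∃ τ : Tab p f k, ∑ j, z j • τ.1 j = ψ := by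
    refine ⟨(fun j => if j = ⟨0, hk2⟩ then (z ⟨0, hk2⟩)⁻¹ • ψ else 0, fun _ => 0), ?_⟩
    show ∑ j : Fin k, z j • (if j = ⟨0, hk2⟩ then (z ⟨0, hk2⟩)⁻¹ • ψ else 0) = ψ
    rw [Finset.sum_eq_single (⟨0, hk2⟩ : Fin k)]
    · rw [if_pos rfl, smul_smul, mul_inv_cancel₀ (hz _), one_smul]
    · intro j _ hj
      rw [if_neg hj, smul_zero]
    · intro h
      exact absurd (Finset.mem_univ _) h
  refine Pool.Agent.Q14.LK.nest_mono k (fun X hX => ?_) hnest
  obtain ⟨hBfin, hBpos, -⟩ := hX τ0 (Finset.mem_univ _)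
  refine ⟨hBfin, ?_⟩
  obtain ⟨Bf, hBf⟩ : ∃ Bf : Finset (Fin k → HeightOneSpectrum (𝓞 F)), Bf = hBfin.toFinset := ⟨_, rfl⟩
  have hmem : ∀ q, q ∈ Bf ↔ q ∈ (Box y X : Set (Fin k → HeightOneSpectrum (𝓞 F))) := by
    intro q
    rw [hBf, Set.Finite.mem_toFinset]
  have hnc : ∀ P : (Fin k → HeightOneSpectrum (𝓞 F)) → Prop,
      ({q ∈ (Box y X : Set (Fin k → HeightOneSpectrum (𝓞 F))) | P q}.ncard : ℝ) =
        ((Bf.filter P).card : ℝ) := by
    intro P
    rw [← Set.ncard_coe_finset (Bf.filter P)]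
    congr 2
    ext q
    rw [Finset.coe_filter]
    show (q ∈ (Box y X : Set (Fin k → HeightOneSpectrum (𝓞 F))) ∧ P q) ↔ (q ∈ Bf ∧ P q)
    rw [hmem]
  have hBc : ((Box y X : Set (Fin k → HeightOneSpectrum (𝓞 F))).ncard : ℝ) = (Bf.card : ℝ) := by
    rw [← Set.ncard_coe_finset Bf]
    congr 2
    ext q
    rw [Finset.mem_coe, hmem]
  rw [hBc] at hBpos
  -- the shares
  have hsh : ∀ τ : Tab p f k, (1 / M - e) * Bf.card ≤ ((Bf.filter (Tb ζ u π τ)).card : ℝ) ∧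
      ((Bf.filter (Tb ζ u π τ)).card : ℝ) ≤ (1 / M + e) * Bf.card := by
    intro τ
    have h1 := (hX τ (Finset.mem_univ _)).2.2
    rw [hBc, hnc, ← hM, abs_le] at h1
    constructor
    · rw [← le_div_iff₀ hBpos]
      linarith [h1.1]
    · rw [← div_le_iff₀ hBpos]
      linarith [h1.2]
  have hinj : ∀ q ∈ Bf, Function.Injective q ∧ ∀ i, ¬ Sm y (q i) := by
    intro q hq
    have h1 := (hmem q).1 hq
    exact ⟨h1.1, fun i => (h1.2 i).1⟩
  -- the number of the tuples with a table with a given property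
  have hcnt : ∀ P : Tab p f k → Prop,
      (({q ∈ (Box y X : Set (Fin k → HeightOneSpectrum (𝓞 F))) | (∃ D, Fits p y D0 z q D) ∧
            ∃ τ, Tb ζ u π τ q ∧ P τ}.ncard : ℝ) =
        ∑ τ ∈ univ.filter (fun τ : Tab p f k => ∑ j, z j • τ.1 j = ψ ∧ P τ),
          ((Bf.filter (Tb ζ u π τ)).card : ℝ)) := by
    intro P
    obtain ⟨Q, hQ⟩ : ∃ Q : (Fin k → HeightOneSpectrum (𝓞 F)) → Prop,
        Q = fun q => (∃ D, Fits p y D0 z q D) ∧ ∃ τ, Tb ζ u π τ q ∧ P τ := ⟨_, rfl⟩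
    have h0 : {q ∈ (Box y X : Set (Fin k → HeightOneSpectrum (𝓞 F))) | (∃ D, Fits p y D0 z q D) ∧
            ∃ τ, Tb ζ u π τ q ∧ P τ} = {q ∈ (Box y X : Set (Fin k → HeightOneSpectrum (𝓞 F))) | Q q} := by
      rw [hQ]
    rw [h0, hnc]
    have h1 : Bf.filter Q =
        (univ.filter (fun τ : Tab p f k => ∑ j, z j • τ.1 j = ψ ∧ P τ)).biUnion
          (fun τ => Bf.filter (Tb ζ u π τ)) := by
      ext q
      rw [Finset.mem_biUnion, Finset.mem_filter, hQ]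
      constructor
      · rintro ⟨hq, hD, τ, hτ, hP⟩
        have h2 := hinj q hq
        refine ⟨τ, ?_, ?_⟩
        · rw [Finset.mem_filter]
          exact ⟨Finset.mem_univ _,
            ((hSH1 p F ζ hζ y f u r π g hb D0 ψ w hD0 hcls' k z q h2.1 h2.2 τ hτ).1).1 hD, hP⟩
        · rw [Finset.mem_filter]
          exact ⟨hq, hτ⟩
      · rintro ⟨τ, hτ, hq⟩
        rw [Finset.mem_filter] at hτ hq
        have h2 := hinj q hq.1
        exact ⟨hq.1, ((hSH1 p F ζ hζ y f u r π g hb D0 ψ w hD0 hcls' k z q h2.1 h2.2 τ hq.2).1).2 hτ.2.1,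
          τ, hq.2, hτ.2.2⟩
    rw [h1, Finset.card_biUnion]
    · push_cast
      rfl
    · intro τ _ τ' _ hne
      rw [Function.onFun, Finset.disjoint_filter]
      intro q _ h h'
      exact hne (Pool.Agent.Q14.LK.tb_unique h h')
  have htab : ∀ q : Fin k → HeightOneSpectrum (𝓞 F), ∃ τ : Tab p f k, Tb ζ u π τ q := fun q =>
    ⟨(fun j l => sy p ζ (q j) (u l), fun x => sy p ζ (q x.1.2) (π (q x.1.1))), fun _ _ => rfl, fun _ => rfl⟩
  have hsumlo : ∀ s : Finset (Tab p f k), (s.card : ℝ) * ((1 / M - e) * Bf.card) ≤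
      ∑ τ ∈ s, ((Bf.filter (Tb ζ u π τ)).card : ℝ) := by
    intro s
    calc (s.card : ℝ) * ((1 / M - e) * Bf.card) = ∑ _τ ∈ s, (1 / M - e) * (Bf.card : ℝ) := by
          rw [Finset.sum_const, nsmul_eq_mul]
      _ ≤ _ := Finset.sum_le_sum fun τ _ => (hsh τ).1
  have hsumhi : ∀ s : Finset (Tab p f k), ∑ τ ∈ s, ((Bf.filter (Tb ζ u π τ)).card : ℝ) ≤
      (s.card : ℝ) * ((1 / M + e) * Bf.card) := by
    intro s
    calc ∑ τ ∈ s, ((Bf.filter (Tb ζ u π τ)).card : ℝ) ≤ ∑ _τ ∈ s, (1 / M + e) * (Bf.card : ℝ) :=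
          Finset.sum_le_sum fun τ _ => (hsh τ).2
      _ = _ := by rw [Finset.sum_const, nsmul_eq_mul]
  have hG : (({q ∈ (Box y X : Set (Fin k → HeightOneSpectrum (𝓞 F))) | ∃ D, Fits p y D0 z q D}.ncard : ℝ)) =
      ∑ τ ∈ univ.filter (fun τ : Tab p f k => ∑ j, z j • τ.1 j = ψ), ((Bf.filter (Tb ζ u π τ)).card : ℝ) := by
    have h1 := hcnt (fun _ => True)
    have h2 : {q ∈ (Box y X : Set (Fin k → HeightOneSpectrum (𝓞 F))) | (∃ D, Fits p y D0 z q D) ∧
            ∃ τ : Tab p f k, Tb ζ u π τ q ∧ True} =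
        {q ∈ (Box y X : Set (Fin k → HeightOneSpectrum (𝓞 F))) | ∃ D, Fits p y D0 z q D} := by
      ext q
      constructor
      · rintro ⟨hq, hD, -⟩
        exact ⟨hq, hD⟩
      · rintro ⟨hq, hD⟩
        obtain ⟨τ, hτ⟩ := htab q
        exact ⟨hq, hD, τ, hτ, trivial⟩
    rw [h2] at h1
    rw [h1]
    refine Finset.sum_congr ?_ fun _ _ => rfl
    ext τ
    simp only [Finset.mem_filter, Finset.mem_univ, true_and, and_true]
  have hT1 : (1 : ℝ) ≤ ((univ.filter (fun τ : Tab p f k => ∑ j, z j • τ.1 j = ψ)).card : ℝ) := by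
    have : 0 < (univ.filter (fun τ : Tab p f k => ∑ j, z j • τ.1 j = ψ)).card := Finset.card_pos.2 ⟨τ0, by
      rw [Finset.mem_filter]
      exact ⟨Finset.mem_univ _, hτ0⟩⟩
    exact_mod_cast this
  have hG1 := hsumlo (univ.filter (fun τ : Tab p f k => ∑ j, z j • τ.1 j = ψ))
  have hG2 := hsumhi (univ.filter (fun τ : Tab p f k => ∑ j, z j • τ.1 j = ψ))
  rw [← hG] at hG1 hG2
  refine ⟨?_, fun q _ => htab q, fun P => ?_⟩
  · refine lt_of_lt_of_le ?_ hG1
    have h1 : 0 < 1 / M - e := by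
      have : 0 < 1 / M := by positivity
      linarith
    positivity
  · have hP1 := hsumlo (univ.filter (fun τ : Tab p f k => ∑ j, z j • τ.1 j = ψ ∧ P τ))
    have hP2 := hsumhi (univ.filter (fun τ : Tab p f k => ∑ j, z j • τ.1 j = ψ ∧ P τ))
    rw [← hcnt P] at hP1 hP2
    refine trf_final hT1 hBpos hM0 he0 he1 he2 hε (Nat.cast_nonneg _) ?_ hG1 hG2 hP1 hP2
    have h1 : (univ.filter (fun τ : Tab p f k => ∑ j, z j • τ.1 j = ψ ∧ P τ)) ⊆
        univ.filter (fun τ : Tab p f k => ∑ j, z j • τ.1 j = ψ) := by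
      intro τ hτ
      rw [Finset.mem_filter] at hτ ⊢
      exact ⟨hτ.1, hτ.2.1⟩
    exact_mod_cast Finset.card_le_card h1

end Pool.Agent.Q265.EN
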