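import Pool.Agent.Q283.EN.Stm

/-!
# Project EN of helper283: job TABL (helper265), the law for the tables
-/

set_option autoImplicit false

namespace Pool.Agent.Q265.EN

open Filter Topology Finset
open Pool.Agent.Q7.LK
open Pool.Agent.Q283.EN

section Lin

variable {p : ℕ} [Fact p.Prime]

theorem dot_add_left {f : ℕ} (a b c : Fin f → ZMod p) : dot (a + b) c = dot a c + dot b c := by
  unfold dot
  rw [← Finset.sum_add_distrib]
  exact Finset.sum_congr rfl fun l _ => by rw [Pi.add_apply, add_mul]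

theorem dot_smul_left {f : ℕ} (s : ZMod p) (a c : Fin f → ZMod p) : dot (s • a) c = s * dot a c := by
  unfold dot
  rw [Finset.mul_sum]
  exact Finset.sum_congr rfl fun l _ => by rw [Pi.smul_apply, smul_eq_mul, mul_assoc]

theorem dot_zero_left {f : ℕ} (c : Fin f → ZMod p) : dot (0 : Fin f → ZMod p) c = 0 := by
  unfold dot
  exact Finset.sum_eq_zero fun l _ => by rw [Pi.zero_apply, zero_mul]

/-- the number of the `a` with `∑ z_j a_j = 0` -/
theorem card_ker_ge {k : ℕ} (z : Fin k → ZMod p) (i0 : Fin k) (h : z i0 ≠ 0) :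
    p ^ k ≤ p * (univ.filter (fun a : Fin k → ZMod p => ∑ j, z j * a j = 0)).card := by
  classical
  have h1 : (univ : Finset (Fin k → ZMod p)).card = p ^ k := by
    rw [Finset.card_univ, Fintype.card_fun, ZMod.card, Fintype.card_fin]
  rw [← h1]
  calc (univ : Finset (Fin k → ZMod p)).card ≤
      ((univ.filter (fun a : Fin k → ZMod p => ∑ j, z j * a j = 0)) ×ˢ (univ : Finset (ZMod p))).card := by
        refine Finset.card_le_card_of_injOn
          (fun a => (a - Pi.single i0 ((z i0)⁻¹ * ∑ j, z j * a j), ∑ j, z j * a j)) ?_ ?_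
        · intro a _
          rw [Finset.mem_coe, Finset.mem_product, Finset.mem_filter]
          refine ⟨⟨Finset.mem_univ _, ?_⟩, Finset.mem_univ _⟩
          obtain ⟨s, hs⟩ : ∃ s : ZMod p, s = ∑ j, z j * a j := ⟨_, rfl⟩
          show ∑ j, z j * (a - Pi.single i0 ((z i0)⁻¹ * ∑ j, z j * a j) : Fin k → ZMod p) j = 0
          rw [← hs]
          have h2 : ∀ j, z j * (a - Pi.single i0 ((z i0)⁻¹ * s) : Fin k → ZMod p) j =
              z j * a j - z j * (Pi.single i0 ((z i0)⁻¹ * s) : Fin k → ZMod p) j := by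
            intro j
            rw [Pi.sub_apply, mul_sub]
          rw [Finset.sum_congr rfl fun j _ => h2 j, Finset.sum_sub_distrib, ← hs, Finset.sum_eq_single i0
            (f := fun j => z j * (Pi.single i0 ((z i0)⁻¹ * s) : Fin k → ZMod p) j), Pi.single_eq_same,
            ← mul_assoc, mul_inv_cancel₀ h, one_mul, sub_self]
          · intro b _ hb
            rw [Pi.single_eq_of_ne hb, mul_zero]
          · intro hb
            exact absurd (Finset.mem_univ _) hb
        · intro a _ b _ hab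
          have h3 : ∑ j, z j * a j = ∑ j, z j * b j := congrArg Prod.snd hab
          have h4 : a - Pi.single i0 ((z i0)⁻¹ * ∑ j, z j * a j) = b - Pi.single i0 ((z i0)⁻¹ * ∑ j, z j * b j) :=
            congrArg Prod.fst hab
          rw [h3] at h4
          exact sub_left_injective h4
    _ = _ := by rw [Finset.card_product, Finset.card_univ, ZMod.card, mul_comm]

theorem exists_dot {f k : ℕ} (φ : Fin k → Fin f → ZMod p)
    (h : Submodule.span (ZMod p) (Set.range φ) ≠ ⊤) :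
    ∃ c : Fin f → ZMod p, c ≠ 0 ∧ ∀ j, dot (φ j) c = 0 := by
  classical
  obtain ⟨F, hF, hle⟩ := Submodule.exists_le_ker_of_lt_top _ (lt_top_iff_ne_top.2 h)
  obtain ⟨c, hc⟩ : ∃ c, c = (dotProductEquiv (ZMod p) (Fin f)).symm F := ⟨_, rfl⟩
  have hFc : F = dotProductEquiv (ZMod p) (Fin f) c := by rw [hc, LinearEquiv.apply_symm_apply]
  have hdot : ∀ v, F v = dot v c := by
    intro v
    rw [hFc]
    show dotProduct c v = dot v c
    rw [dotProduct_comm]
    rfl
  refine ⟨c, fun h0 => hF ?_, fun j => ?_⟩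
  · rw [hFc, h0, map_zero]
  · rw [← hdot]
    exact hle (Submodule.subset_span (Set.mem_range_self j))

theorem card_dot {f k : ℕ} (z : Fin k → ZMod p) (ψ c : Fin f → ZMod p) (hc : c ≠ 0) :
    (univ.filter (fun φ : Fin k → Fin f → ZMod p => ∑ j, z j • φ j = ψ ∧ ∀ j, dot (φ j) c = 0)).card *
      (univ.filter (fun a : Fin k → ZMod p => ∑ j, z j * a j = 0)).card ≤
    (univ.filter (fun φ : Fin k → Fin f → ZMod p => ∑ j, z j • φ j = ψ)).card := by
  classical
  obtain ⟨l0, hl0⟩ : ∃ l, c l ≠ 0 := by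
    by_contra hcon
    push Not at hcon
    exact hc (funext hcon)
  rw [← Finset.card_product]
  refine Finset.card_le_card_of_injOn
    (fun x => fun j => x.1 j + x.2 j • (Pi.single l0 1 : Fin f → ZMod p)) ?_ ?_
  · rintro ⟨φ, a⟩ hx
    rw [Finset.mem_coe, Finset.mem_product, Finset.mem_filter, Finset.mem_filter] at hx
    rw [Finset.mem_coe, Finset.mem_filter]
    refine ⟨Finset.mem_univ _, ?_⟩
    have h1 := hx.1.2.1
    have h2 := hx.2.2
    show ∑ j, z j • (φ j + a j • (Pi.single l0 1 : Fin f → ZMod p)) = ψ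
    have h3 : ∀ j, z j • (φ j + a j • (Pi.single l0 1 : Fin f → ZMod p)) =
        z j • φ j + (z j * a j) • (Pi.single l0 1 : Fin f → ZMod p) := by
      intro j
      rw [smul_add, smul_smul]
    rw [Finset.sum_congr rfl fun j _ => h3 j, Finset.sum_add_distrib, ← Finset.sum_smul]
    show ∑ j, z j • φ j + (∑ j, z j * a j) • (Pi.single l0 1 : Fin f → ZMod p) = ψ
    rw [h2, zero_smul, add_zero]
    exact h1
  · rintro ⟨φ, a⟩ hx ⟨φ', a'⟩ hx' he
    rw [Finset.mem_coe, Finset.mem_product, Finset.mem_filter, Finset.mem_filter] at hx hx'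
    have hd : dot (Pi.single l0 1 : Fin f → ZMod p) c = c l0 := by
      unfold dot
      rw [Finset.sum_eq_single l0, Pi.single_eq_same, one_mul]
      · intro b _ hb
        rw [Pi.single_eq_of_ne hb, zero_mul]
      · intro hb
        exact absurd (Finset.mem_univ _) hb
    have h1 : ∀ j, φ j + a j • (Pi.single l0 1 : Fin f → ZMod p) =
        φ' j + a' j • (Pi.single l0 1 : Fin f → ZMod p) := fun j => congrFun he j
    have h2 : ∀ j, a j = a' j := by
      intro j
      have h3 := congrArg (fun v => dot v c) (h1 j)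
      have h4 : dot (φ j + a j • (Pi.single l0 1 : Fin f → ZMod p)) c =
          dot (φ' j + a' j • (Pi.single l0 1 : Fin f → ZMod p)) c := h3
      rw [dot_add_left, dot_add_left, dot_smul_left, dot_smul_left, hx.1.2.2 j, hx'.1.2.2 j, zero_add, zero_add,
        hd] at h4
      exact mul_right_cancel₀ hl0 h4
    have h5 : a = a' := funext h2
    have h6 : φ = φ' := by
      funext j
      have h7 := h1 j
      rw [h2 j] at h7
      exact add_right_cancel h7
    rw [h5, h6]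

/-- few non-spanning tuples -/
theorem card_nonspan {f k : ℕ} (z : Fin k → ZMod p) (ψ : Fin f → ZMod p) (i0 : Fin k) (h : z i0 ≠ 0) :
    (univ.filter (fun φ : Fin k → Fin f → ZMod p => ∑ j, z j • φ j = ψ ∧
      Submodule.span (ZMod p) (Set.range φ) ≠ ⊤)).card * p ^ k ≤
    p ^ f * p * (univ.filter (fun φ : Fin k → Fin f → ZMod p => ∑ j, z j • φ j = ψ)).card := by
  classical
  obtain ⟨C, hC⟩ : ∃ C : Finset (Fin f → ZMod p), C = univ.filter (fun c => c ≠ 0) := ⟨_, rfl⟩
  have h1 : (univ.filter (fun φ : Fin k → Fin f → ZMod p => ∑ j, z j • φ j = ψ ∧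
      Submodule.span (ZMod p) (Set.range φ) ≠ ⊤)) ⊆
      C.biUnion (fun c => univ.filter (fun φ : Fin k → Fin f → ZMod p => ∑ j, z j • φ j = ψ ∧
        ∀ j, dot (φ j) c = 0)) := by
    intro φ hφ
    rw [Finset.mem_filter] at hφ
    obtain ⟨c, hc0, hc⟩ := exists_dot φ hφ.2.2
    rw [Finset.mem_biUnion]
    refine ⟨c, ?_, ?_⟩
    · rw [hC, Finset.mem_filter]
      exact ⟨Finset.mem_univ _, hc0⟩
    · rw [Finset.mem_filter]
      exact ⟨Finset.mem_univ _, hφ.2.1, hc⟩
  have h2 := (Finset.card_le_card h1).trans Finset.card_biUnion_le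
  have h3 : ∀ c ∈ C, (univ.filter (fun φ : Fin k → Fin f → ZMod p => ∑ j, z j • φ j = ψ ∧
        ∀ j, dot (φ j) c = 0)).card * p ^ k ≤
      p * (univ.filter (fun φ : Fin k → Fin f → ZMod p => ∑ j, z j • φ j = ψ)).card := by
    intro c hc
    rw [hC, Finset.mem_filter] at hc
    have h4 := card_dot z ψ c hc.2
    have h5 := card_ker_ge z i0 h
    calc _ ≤ (univ.filter (fun φ : Fin k → Fin f → ZMod p => ∑ j, z j • φ j = ψ ∧
        ∀ j, dot (φ j) c = 0)).card * (p * (univ.filter (fun a : Fin k → ZMod p => ∑ j, z j * a j = 0)).card) :=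
          Nat.mul_le_mul_left _ h5
      _ = p * ((univ.filter (fun φ : Fin k → Fin f → ZMod p => ∑ j, z j • φ j = ψ ∧
        ∀ j, dot (φ j) c = 0)).card * (univ.filter (fun a : Fin k → ZMod p => ∑ j, z j * a j = 0)).card) := by ring
      _ ≤ _ := Nat.mul_le_mul_left _ h4
  calc _ ≤ (∑ c ∈ C, (univ.filter (fun φ : Fin k → Fin f → ZMod p => ∑ j, z j • φ j = ψ ∧
        ∀ j, dot (φ j) c = 0)).card) * p ^ k := Nat.mul_le_mul_right _ h2
    _ = ∑ c ∈ C, (univ.filter (fun φ : Fin k → Fin f → ZMod p => ∑ j, z j • φ j = ψ ∧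
        ∀ j, dot (φ j) c = 0)).card * p ^ k := by rw [Finset.sum_mul]
    _ ≤ ∑ _c ∈ C, p * (univ.filter (fun φ : Fin k → Fin f → ZMod p => ∑ j, z j • φ j = ψ)).card :=
        Finset.sum_le_sum h3
    _ = C.card * (p * (univ.filter (fun φ : Fin k → Fin f → ZMod p => ∑ j, z j • φ j = ψ)).card) := by
        rw [Finset.sum_const, smul_eq_mul]
    _ ≤ p ^ f * (p * (univ.filter (fun φ : Fin k → Fin f → ZMod p => ∑ j, z j • φ j = ψ)).card) := by
        refine Nat.mul_le_mul_right _ ?_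
        have h6 : (univ : Finset (Fin f → ZMod p)).card = p ^ f := by
          rw [Finset.card_univ, Fintype.card_fun, ZMod.card, Fintype.card_fin]
        rw [← h6]
        exact Finset.card_le_card (Finset.subset_univ _)
    _ = _ := by ring

/-- isotropic subspaces have at most `p ^ f` elements -/
theorem card_iso {f : ℕ} {g : (Fin f → ZMod p) → (Fin f → ZMod p) → ZMod p} (hg : Alt g)
    (E : Submodule (ZMod p) ((Fin f → ZMod p) × (Fin f → ZMod p))) (hE : ∀ x ∈ E, ∀ x' ∈ E, BB g x x' = 0) :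
    Nat.card E ≤ p ^ f := by
  classical
  have hp : p.Prime := Fact.out
  have hg0 : ∀ b, g 0 b = 0 := by
    intro b
    have h := hg.add 0 0 b
    rw [add_zero] at h
    exact left_eq_add.1 h
  -- the first coordinates and the kernel
  obtain ⟨U, hU⟩ : ∃ U : Submodule (ZMod p) (Fin f → ZMod p), U = E.map (LinearMap.fst (ZMod p) _ _) := ⟨_, rfl⟩
  obtain ⟨K, hK⟩ : ∃ K : Submodule (ZMod p) (Fin f → ZMod p), K = E.comap (LinearMap.inr (ZMod p) _ _) := ⟨_, rfl⟩
  obtain ⟨W, hW⟩ : ∃ W : Submodule (ZMod p) (Module.Dual (ZMod p) (Fin f → ZMod p)),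
    W = K.map (dotProductEquiv (ZMod p) (Fin f)).toLinearMap := ⟨_, rfl⟩
  have hWK : Module.finrank (ZMod p) W = Module.finrank (ZMod p) K := by
    rw [hW]
    exact LinearEquiv.finrank_map_eq _ _
  have hUW : U ≤ W.dualCoannihilator := by
    intro v hv
    rw [hU, Submodule.mem_map] at hv
    obtain ⟨x, hx, rfl⟩ := hv
    rw [Submodule.mem_dualCoannihilator]
    intro φ hφ
    rw [hW, Submodule.mem_map] at hφ
    obtain ⟨c, hc, rfl⟩ := hφ
    rw [hK, Submodule.mem_comap] at hc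
    have h1 := hE _ hc x hx
    unfold BB at h1
    have h2 : (LinearMap.inr (ZMod p) (Fin f → ZMod p) (Fin f → ZMod p)) c = (0, c) := rfl
    rw [h2] at h1
    have h3 : g 0 x.1 + dot 0 x.2 - dot x.1 c = 0 := h1
    rw [hg0, dot_zero_left, zero_add, zero_sub, neg_eq_zero] at h3
    show dotProduct c x.1 = 0
    rw [dotProduct_comm]
    exact h3
  have hdim : Module.finrank (ZMod p) U + Module.finrank (ZMod p) K ≤ f := by
    have h1 := Subspace.finrank_add_finrank_dualCoannihilator_eq W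
    rw [hWK, Module.finrank_fintype_fun_eq_card, Fintype.card_fin] at h1
    have h2 := Submodule.finrank_mono hUW
    omega
  have hEUK : Nat.card E ≤ Nat.card U * Nat.card K := by
    -- choose a preimage for every element of `U`
    have hs : ∀ v : U, ∃ x : (Fin f → ZMod p) × (Fin f → ZMod p), x ∈ E ∧ x.1 = v.1 := by
      rintro ⟨v, hv⟩
      rw [hU, Submodule.mem_map] at hv
      obtain ⟨x, hx, hxv⟩ := hv
      exact ⟨x, hx, hxv⟩
    choose s hsE hs1 using hs
    rw [← Nat.card_prod]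
    have hmemU : ∀ x : E, x.1.1 ∈ U := by
      intro x
      rw [hU, Submodule.mem_map]
      exact ⟨x.1, x.2, rfl⟩
    have hmemK : ∀ x : E, x.1.2 - (s ⟨x.1.1, hmemU x⟩).2 ∈ K := by
      intro x
      rw [hK, Submodule.mem_comap]
      have h1 : (LinearMap.inr (ZMod p) (Fin f → ZMod p) (Fin f → ZMod p)) (x.1.2 - (s ⟨x.1.1, hmemU x⟩).2) =
          x.1 - s ⟨x.1.1, hmemU x⟩ := by
        refine Prod.ext ?_ ?_
        · show (0 : Fin f → ZMod p) = x.1.1 - (s ⟨x.1.1, hmemU x⟩).1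
          rw [hs1 ⟨x.1.1, hmemU x⟩, sub_self]
        · rfl
      rw [h1]
      exact E.sub_mem x.2 (hsE _)
    refine Nat.card_le_card_of_injective
      (fun x : E => ((⟨x.1.1, hmemU x⟩ : U), (⟨x.1.2 - (s ⟨x.1.1, hmemU x⟩).2, hmemK x⟩ : K))) ?_
    intro x x' h
    have h1 : x.1.1 = x'.1.1 := congrArg (fun q => (q.1 : Fin f → ZMod p)) h
    have h2 : x.1.2 - (s ⟨x.1.1, hmemU x⟩).2 = x'.1.2 - (s ⟨x'.1.1, hmemU x'⟩).2 :=
      congrArg (fun q => (q.2 : Fin f → ZMod p)) h
    have h3 : (⟨x.1.1, hmemU x⟩ : U) = ⟨x'.1.1, hmemU x'⟩ := Subtype.ext h1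
    rw [h3] at h2
    exact Subtype.ext (Prod.ext h1 (sub_left_injective h2))
  have hU2 : Nat.card U = p ^ Module.finrank (ZMod p) U := by
    rw [Module.natCard_eq_pow_finrank (K := ZMod p), Nat.card_zmod]
  have hK2 : Nat.card K = p ^ Module.finrank (ZMod p) K := by
    rw [Module.natCard_eq_pow_finrank (K := ZMod p), Nat.card_zmod]
  rw [hU2, hK2, ← pow_add] at hEUK
  exact hEUK.trans (Nat.pow_le_pow_right hp.pos hdim)

end Lin

section Sol

variable {p : ℕ} [Fact p.Prime] {f k : ℕ}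

/-- the solutions for a table: `p` times the number of those with `Y_0 = 0` -/
theorem card_SolX_le (g : (Fin f → ZMod p) → (Fin f → ZMod p) → ZMod p) (w ψ : Fin f → ZMod p) (z : Fin k → ZMod p)
    (E : Submodule (ZMod p) ((Fin f → ZMod p) × (Fin f → ZMod p))) (hk : 1 ≤ k) (hz : ∀ i, z i ≠ 0)
    (hψ : (ψ, w) ∈ E) (E' : Finset ((Fin f → ZMod p) × (Fin f → ZMod p))) (hE' : ∀ x, x ∈ E' ↔ x ∈ E)
    (τ : Tab p f k) (hτ : ∑ j, z j • τ.1 j = ψ) (S : Finset ((Fin f → ZMod p) × (Fin k → ZMod p)))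
    (hS : ∀ x, x ∈ S ↔ IsSol g w z E' τ x) :
    Nat.card (SolX g w z E τ) ≤ p * (1 + S.card) := by
  classical
  have hmem : ∀ x : SolX g w z E τ,
      (x.1.1 - (x.1.2 ⟨0, hk⟩ * (z ⟨0, hk⟩)⁻¹) • w, x.1.2 - (x.1.2 ⟨0, hk⟩ * (z ⟨0, hk⟩)⁻¹) • z) ∈ insert 0 S := by
    rintro ⟨⟨c, Y⟩, hx1, hx2⟩
    obtain ⟨s, hs⟩ : ∃ s, s = Y ⟨0, hk⟩ * (z ⟨0, hk⟩)⁻¹ := ⟨_, rfl⟩
    show (c - (Y ⟨0, hk⟩ * (z ⟨0, hk⟩)⁻¹) • w, Y - (Y ⟨0, hk⟩ * (z ⟨0, hk⟩)⁻¹) • z) ∈ insert 0 S
    rw [← hs, Finset.mem_insert]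
    by_cases h0 : (c - s • w, Y - s • z) = 0
    · exact Or.inl h0
    · right
      rw [hS]
      refine ⟨?_, h0, ?_, ?_⟩
      · intro j hj
        have hj0 : j = ⟨0, hk⟩ := Fin.ext hj
        show Y j - s * z j = 0
        rw [hs, hj0, mul_assoc, inv_mul_cancel₀ (hz _), mul_one, sub_self]
      · rw [hE']
        have h1 : (∑ j, (Y - s • z) j • τ.1 j, c - s • w) = (∑ j, Y j • τ.1 j, c) - s • (ψ, w) := by
          refine Prod.ext ?_ rfl
          show ∑ j, (Y j - s * z j) • τ.1 j = ∑ j, Y j • τ.1 j - s • ψ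
          rw [← hτ, Finset.smul_sum, ← Finset.sum_sub_distrib]
          refine Finset.sum_congr rfl fun j _ => ?_
          rw [sub_smul, smul_smul]
        show (∑ j, (Y - s • z) j • τ.1 j, c - s • w) ∈ E
        rw [h1]
        exact E.sub_mem hx1 (E.smul_mem s hψ)
      · intro j
        have h2 := hx2 j
        have h3 : ∀ i, (Y - s • z) i - (Y - s • z) j * (z j)⁻¹ * z i = Y i - Y j * (z j)⁻¹ * z i := by
          intro i
          show (Y i - s * z i) - (Y j - s * z j) * (z j)⁻¹ * z i = Y i - Y j * (z j)⁻¹ * z i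
          have h4 : z j * (z j)⁻¹ = 1 := mul_inv_cancel₀ (hz j)
          linear_combination (s * z i) * h4
        have h5 : (c - s • w) - ((Y - s • z) j * (z j)⁻¹) • w = c - (Y j * (z j)⁻¹) • w := by
          funext l
          show (c l - s * w l) - ((Y j - s * z j) * (z j)⁻¹) * w l = c l - (Y j * (z j)⁻¹) * w l
          have h4 : z j * (z j)⁻¹ = 1 := mul_inv_cancel₀ (hz j)
          linear_combination (s * w l) * h4
        show ∑ i, ((Y - s • z) i - (Y - s • z) j * (z j)⁻¹ * z i) * Mt g τ i j =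
          dot (τ.1 j) ((c - s • w) - ((Y - s • z) j * (z j)⁻¹) • w)
        rw [h5, ← h2]
        exact Finset.sum_congr rfl fun i _ => by rw [h3]
  have h1 : Nat.card (SolX g w z E τ) ≤
      Nat.card ({x // x ∈ insert (0 : (Fin f → ZMod p) × (Fin k → ZMod p)) S} × ZMod p) := by
    refine Nat.card_le_card_of_injective (fun x : SolX g w z E τ =>
      (⟨(x.1.1 - (x.1.2 ⟨0, hk⟩ * (z ⟨0, hk⟩)⁻¹) • w, x.1.2 - (x.1.2 ⟨0, hk⟩ * (z ⟨0, hk⟩)⁻¹) • z), hmem x⟩,
        x.1.2 ⟨0, hk⟩ * (z ⟨0, hk⟩)⁻¹)) ?_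
    intro x x' h
    have h2 : x.1.2 ⟨0, hk⟩ * (z ⟨0, hk⟩)⁻¹ = x'.1.2 ⟨0, hk⟩ * (z ⟨0, hk⟩)⁻¹ := congrArg Prod.snd h
    have h3 : (x.1.1 - (x.1.2 ⟨0, hk⟩ * (z ⟨0, hk⟩)⁻¹) • w, x.1.2 - (x.1.2 ⟨0, hk⟩ * (z ⟨0, hk⟩)⁻¹) • z) =
        (x'.1.1 - (x'.1.2 ⟨0, hk⟩ * (z ⟨0, hk⟩)⁻¹) • w, x'.1.2 - (x'.1.2 ⟨0, hk⟩ * (z ⟨0, hk⟩)⁻¹) • z) :=
      congrArg (fun q => (q.1 : (Fin f → ZMod p) × (Fin k → ZMod p))) h
    rw [h2] at h3
    rw [Prod.mk.injEq] at h3
    exact Subtype.ext (Prod.ext (sub_left_injective h3.1) (sub_left_injective h3.2))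
  have h0 : Nat.card {x // x ∈ insert (0 : (Fin f → ZMod p) × (Fin k → ZMod p)) S} = (insert 0 S).card :=
    Nat.subtype_card _ fun _ => Iff.rfl
  rw [Nat.card_prod, Nat.card_zmod, h0] at h1
  refine h1.trans ?_
  rw [mul_comm]
  refine Nat.mul_le_mul_left _ ?_
  rw [add_comm]
  exact Finset.card_insert_le _ _

theorem card_fib (a : (Fin k → Fin f → ZMod p) → Prop) (P : Tab p f k → Prop) [DecidablePred a]
    [DecidablePred (fun τ : Tab p f k => a τ.1 ∧ P τ)]
    [∀ φ : Fin k → Fin f → ZMod p, DecidablePred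
      (fun t : {x : Fin k × Fin k // x.1 < x.2} → ZMod p => P (φ, t))] :
    (univ.filter (fun τ : Tab p f k => a τ.1 ∧ P τ)).card =
      ∑ φ ∈ univ.filter a,
        (univ.filter (fun t : {x : Fin k × Fin k // x.1 < x.2} → ZMod p => P (φ, t))).card := by
  classical
  rw [Finset.card_eq_sum_card_fiberwise (f := fun τ : Tab p f k => τ.1) (t := univ.filter a)]
  · refine Finset.sum_congr rfl fun φ hφ => ?_
    rw [Finset.mem_filter] at hφ
    refine Finset.card_nbij' (fun τ : Tab p f k => τ.2) (fun t => (φ, t)) ?_ ?_ ?_ ?_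
    · intro τ hτ
      rw [Finset.mem_coe, Finset.mem_filter, Finset.mem_filter] at hτ
      rw [Finset.mem_coe, Finset.mem_filter]
      refine ⟨Finset.mem_univ _, ?_⟩
      rw [← hτ.2]
      exact hτ.1.2.2
    · intro t ht
      rw [Finset.mem_coe, Finset.mem_filter] at ht
      rw [Finset.mem_coe, Finset.mem_filter, Finset.mem_filter]
      exact ⟨⟨Finset.mem_univ _, hφ.2, ht.2⟩, rfl⟩
    · intro τ hτ
      rw [Finset.mem_coe, Finset.mem_filter, Finset.mem_filter] at hτ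
      exact Prod.ext hτ.2.symm rfl
    · intro t _
      rfl
  · intro τ hτ
    rw [Finset.mem_coe, Finset.mem_filter] at hτ
    rw [Finset.mem_coe, Finset.mem_filter]
    exact ⟨Finset.mem_univ _, hτ.2.1⟩

end Sol

theorem nSy_pos (p n : ℕ) [Fact p.Prime] : 0 < nSy p n := by
  unfold nSy
  rw [Nat.card_pos_iff]
  exact ⟨⟨⟨0, Matrix.isSymm_zero⟩⟩, inferInstance⟩

theorem nRk_le (p n r : ℕ) [Fact p.Prime] : nRk p n r ≤ nSy p n := by
  unfold nSy nRk
  refine Nat.card_le_card_of_injective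
    (fun M => (⟨M.1, M.2.1⟩ : {M : Matrix (Fin n) (Fin n) (ZMod p) // M.IsSymm})) ?_
  intro M M' h
  have h1 : M.1 = M'.1 := congrArg (fun q : {M : Matrix (Fin n) (Fin n) (ZMod p) // M.IsSymm} => q.1) h
  exact Subtype.ext h1

theorem tabl (hALG : Pool.Agent.Q283.EN.S_ALG) (hSYML : Pool.Agent.Q283.EN.S_SYML)
    (hCOUNT : Pool.Agent.Q7.LK.S_COUNT) : Pool.Agent.Q283.EN.S_TABL := by
  intro p _ f R ε hε
  classical
  have hp : p.Prime := Fact.out
  have hp1 : (1 : ℝ) < p := by exact_mod_cast hp.one_lt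
  have hp0 : (0 : ℝ) < p := by linarith
  -- the choice of k0
  have hlim : Tendsto (fun k : ℕ => (p : ℝ) ^ f * p / (p : ℝ) ^ k) atTop (𝓝 0) := by
    have h1 := tendsto_pow_atTop_nhds_zero_of_lt_one (by positivity : (0 : ℝ) ≤ 1 / (p : ℝ))
      (by rw [div_lt_one hp0]; exact hp1 : (1 : ℝ) / p < 1)
    have h2 := h1.const_mul ((p : ℝ) ^ f * p)
    rw [mul_zero] at h2
    refine h2.congr fun k => ?_
    rw [one_div, inv_pow, ← div_eq_mul_inv]
  obtain ⟨k1, hk1⟩ := eventually_atTop.1 (hlim.eventually (gt_mem_nhds (half_pos hε)))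
  have hal : ∀ r, 0 ≤ al p r ∧ al p r ≤ 1 := by
    intro r
    refine ⟨ge_of_tendsto' (hSYML p r) fun n => by positivity, le_of_tendsto' (hSYML p r) fun n => ?_⟩
    rw [div_le_one (by exact_mod_cast nSy_pos p n)]
    exact_mod_cast nRk_le p n r
  have hn0 : ∀ r, ∃ n0 : ℕ, ∀ n, n0 ≤ n → |(nRk p n r : ℝ) / nSy p n - al p r| ≤ ε / 2 := by
    intro r
    obtain ⟨n0, h⟩ := (Metric.tendsto_atTop.1 (hSYML p r)) (ε / 2) (half_pos hε)
    refine ⟨n0, fun n hn => ?_⟩
    have h1 := h n hn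
    rw [Real.dist_eq] at h1
    exact h1.le
  choose n0 hn0 using hn0
  refine ⟨max k1 ((range (R + 1)).sup n0 + 1 + f), fun k hk g w ψ z E hg hE hψ hz => ?_⟩
  have hk1' : k1 ≤ k := (le_max_left _ _).trans hk
  have hk2 : (range (R + 1)).sup n0 + 1 + f ≤ k := (le_max_right _ _).trans hk
  have hk3 : 1 ≤ k := by omega
  have hδ := (hk1 k hk1').le
  have hpk : (0 : ℝ) < (p : ℝ) ^ k := by positivity
  obtain ⟨Mt', hMt⟩ : ∃ Mt' : ℝ, Mt' = (Fintype.card ({x : Fin k × Fin k // x.1 < x.2} → ZMod p) : ℝ) := ⟨_, rfl⟩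
  have hMt0 : 0 ≤ Mt' := by rw [hMt]; positivity
  obtain ⟨T, hT⟩ : ∃ T : ℝ, T = ((univ.filter (fun τ : Tab p f k => ∑ j, z j • τ.1 j = ψ)).card : ℝ) := ⟨_, rfl⟩
  obtain ⟨Ac, hAc⟩ : ∃ Ac : Finset (Fin k → Fin f → ZMod p),
    Ac = univ.filter (fun φ : Fin k → Fin f → ZMod p => ∑ j, z j • φ j = ψ) := ⟨_, rfl⟩
  obtain ⟨Ns, hNs⟩ : ∃ Ns : Finset (Fin k → Fin f → ZMod p),
    Ns = univ.filter (fun φ : Fin k → Fin f → ZMod p => ∑ j, z j • φ j = ψ ∧
      Submodule.span (ZMod p) (Set.range φ) ≠ ⊤) := ⟨_, rfl⟩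
  have hTA : T = Ac.card * Mt' := by
    have h1 := card_fib (f := f) (k := k) (fun φ => ∑ j, z j • φ j = ψ) (fun _ : Tab p f k => True)
    have h2 : (univ.filter (fun τ : Tab p f k => ∑ j, z j • τ.1 j = ψ ∧ True)) =
      univ.filter (fun τ : Tab p f k => ∑ j, z j • τ.1 j = ψ) := by
      ext τ
      simp only [Finset.mem_filter, Finset.mem_univ, true_and, and_true]
    rw [h2] at h1
    rw [hT, h1, hAc, hMt]
    push_cast
    rw [Finset.sum_congr rfl (g := fun _ => (Fintype.card ({x : Fin k × Fin k // x.1 < x.2} → ZMod p) : ℝ))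
      (fun φ _ => ?_), Finset.sum_const, nsmul_eq_mul]
    rw [Finset.filter_true, Finset.card_univ]
  have hns : (Ns.card : ℝ) ≤ ε / 2 * Ac.card := by
    have h1 := card_nonspan z ψ (⟨0, hk3⟩ : Fin k) (hz _)
    have h1' : (Ns.card : ℝ) * (p : ℝ) ^ k ≤ (p : ℝ) ^ f * p * Ac.card := by
      rw [hNs, hAc]
      exact_mod_cast h1
    have h2 : (Ns.card : ℝ) ≤ (p : ℝ) ^ f * p / (p : ℝ) ^ k * Ac.card := by
      rw [div_mul_eq_mul_div, le_div_iff₀ hpk]
      exact h1'
    refine h2.trans ?_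
    exact mul_le_mul_of_nonneg_right hδ (Nat.cast_nonneg _)
  have hNsT : (Ns.card : ℝ) * Mt' ≤ ε / 2 * T := by
    rw [hTA, ← mul_assoc]
    exact mul_le_mul_of_nonneg_right hns hMt0
  have hT0 : 0 ≤ T := by rw [hT]; positivity
  refine ⟨fun r hr => ?_, ?_, ?_⟩
  · rw [← hT]
    rw [card_fib (f := f) (k := k) (fun φ => ∑ j, z j • φ j = ψ)
      (fun τ : Tab p f k => Nat.card (SolX g w z E τ) = p ^ (r + 1)), ← hAc, hTA]
    push_cast
    have h1 : ∀ φ ∈ Ac, |((univ.filter (fun t : {x : Fin k × Fin k // x.1 < x.2} → ZMod p =>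
        Nat.card (SolX g w z E (φ, t)) = p ^ (r + 1))).card : ℝ) - al p r * Mt'| ≤
          ε / 2 * Mt' + (if Submodule.span (ZMod p) (Set.range φ) ≠ ⊤ then Mt' else 0) := by
      intro φ hφ
      rw [hAc, Finset.mem_filter] at hφ
      have hle : ((univ.filter (fun t : {x : Fin k × Fin k // x.1 < x.2} → ZMod p =>
        Nat.card (SolX g w z E (φ, t)) = p ^ (r + 1))).card : ℝ) ≤ Mt' := by
        rw [hMt, ← Finset.card_univ]
        exact_mod_cast Finset.card_le_card (Finset.filter_subset _ _)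
      by_cases hsp : Submodule.span (ZMod p) (Set.range φ) = ⊤
      · rw [if_neg (not_not.2 hsp), add_zero]
        obtain ⟨n, hn1, hn2, hn3⟩ := hALG p f k g w ψ z E hk3 hg hE hψ hz φ hφ.2 hsp
        have h2 := hn3 r
        have h3 : Nat.card {t : {x : Fin k × Fin k // x.1 < x.2} → ZMod p //
            Nat.card (SolX g w z E (φ, t)) = p ^ (r + 1)} =
            (univ.filter (fun t : {x : Fin k × Fin k // x.1 < x.2} → ZMod p =>
        Nat.card (SolX g w z E (φ, t)) = p ^ (r + 1))).card := by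
          refine Nat.subtype_card _ fun t => ?_
          rw [Finset.mem_filter]
          exact ⟨fun h => h.2, fun h => ⟨Finset.mem_univ _, h⟩⟩
        rw [h3, Nat.card_eq_fintype_card] at h2
        have h4 : ((univ.filter (fun t : {x : Fin k × Fin k // x.1 < x.2} → ZMod p =>
        Nat.card (SolX g w z E (φ, t)) = p ^ (r + 1))).card : ℝ) * (nSy p n : ℝ) = nRk p n r * Mt' := by
          rw [hMt]
          exact_mod_cast h2
        have hny : (0 : ℝ) < nSy p n := by exact_mod_cast nSy_pos p n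
        have h5 : ((univ.filter (fun t : {x : Fin k × Fin k // x.1 < x.2} → ZMod p =>
        Nat.card (SolX g w z E (φ, t)) = p ^ (r + 1))).card : ℝ) = nRk p n r / nSy p n * Mt' := by
          rw [div_mul_eq_mul_div, eq_div_iff hny.ne']
          exact h4
        rw [h5, ← sub_mul, abs_mul, abs_of_nonneg hMt0]
        refine mul_le_mul_of_nonneg_right (hn0 r n ?_) hMt0
        have h6 : n0 r ≤ (range (R + 1)).sup n0 :=
          Finset.le_sup (f := n0) (Finset.mem_range.2 (Nat.lt_succ_of_le hr))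
        omega
      · rw [if_pos hsp]
        have ha := hal r
        have h2 : al p r * Mt' ≤ Mt' := by
          calc al p r * Mt' ≤ 1 * Mt' := mul_le_mul_of_nonneg_right ha.2 hMt0
            _ = Mt' := one_mul _
        have h3 : 0 ≤ al p r * Mt' := mul_nonneg ha.1 hMt0
        have h4 : 0 ≤ ε / 2 * Mt' := by positivity
        rw [abs_le]
        have h5 : (0 : ℝ) ≤ ((univ.filter (fun t : {x : Fin k × Fin k // x.1 < x.2} → ZMod p =>
          Nat.card (SolX g w z E (φ, t)) = p ^ (r + 1))).card : ℝ) := Nat.cast_nonneg _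
        constructor
        · linarith
        · linarith
    have h2 : al p r * (Ac.card * Mt') = ∑ _φ ∈ Ac, al p r * Mt' := by
      rw [Finset.sum_const, nsmul_eq_mul]
      ring
    rw [h2, ← Finset.sum_sub_distrib]
    refine (Finset.abs_sum_le_sum_abs _ _).trans ((Finset.sum_le_sum h1).trans ?_)
    rw [Finset.sum_add_distrib, Finset.sum_const, nsmul_eq_mul, ← Finset.sum_filter, Finset.sum_const, nsmul_eq_mul]
    have h3 : (Ac.filter (fun φ => Submodule.span (ZMod p) (Set.range φ) ≠ ⊤)) = Ns := by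
      ext φ
      rw [hAc, hNs, Finset.mem_filter, Finset.mem_filter, Finset.mem_filter]
      exact ⟨fun h => ⟨h.1.1, h.1.2, h.2⟩, fun h => ⟨⟨h.1, h.2.1⟩, h.2.2⟩⟩
    rw [h3]
    rw [hTA] at hNsT
    linarith
  · rw [← hT]
    have h1 : (univ.filter (fun τ : Tab p f k => ∑ j, z j • τ.1 j = ψ ∧
        Submodule.span (ZMod p) (Set.range τ.1) ≠ ⊤)).card = ∑ φ ∈ Ns,
        (univ.filter (fun _ : {x : Fin k × Fin k // x.1 < x.2} → ZMod p => True)).card := by
      have h2 := card_fib (f := f) (k := k) (fun φ => ∑ j, z j • φ j = ψ ∧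
        Submodule.span (ZMod p) (Set.range φ) ≠ ⊤) (fun _ : Tab p f k => True)
      rw [hNs, ← h2]
      refine congrArg Finset.card ?_
      ext τ
      simp only [Finset.mem_filter, Finset.mem_univ, true_and, and_true]
    rw [h1]
    push_cast
    rw [Finset.filter_true, Finset.card_univ, Finset.sum_const, nsmul_eq_mul, ← hMt]
    refine hNsT.trans ?_
    have : 0 ≤ ε / 2 * T := by positivity
    linarith
  · rw [← hT]
    obtain ⟨E', hE'⟩ : ∃ E' : Finset ((Fin f → ZMod p) × (Fin f → ZMod p)), E' = univ.filter (fun x => x ∈ E) :=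
      ⟨_, rfl⟩
    have hmemE : ∀ x, x ∈ E' ↔ x ∈ E := by
      intro x
      rw [hE', Finset.mem_filter]
      exact ⟨fun h => h.2, fun h => ⟨Finset.mem_univ _, h⟩⟩
    have hEc : (E'.card : ℝ) ≤ (p : ℝ) ^ f := by
      have h1 : Nat.card E = E'.card := Nat.subtype_card _ hmemE
      have h2 := card_iso hg E hE.iso
      rw [h1] at h2
      exact_mod_cast h2
    have h1 := hCOUNT p f k hk3 g w ψ z hz E'
    rw [← hT] at h1
    have h2 : ∑ τ ∈ univ.filter (fun τ : Tab p f k => ∑ j, z j • τ.1 j = ψ), (Nat.card (SolX g w z E τ) : ℝ) ≤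
        ∑ τ ∈ univ.filter (fun τ : Tab p f k => ∑ j, z j • τ.1 j = ψ), (p * (1 +
          (((univ : Finset ((Fin f → ZMod p) × (Fin k → ZMod p))).filter
            (fun x => IsSol g w z E' τ x)).card : ℝ))) := by
      refine Finset.sum_le_sum fun τ hτ => ?_
      rw [Finset.mem_filter] at hτ
      have h3 := card_SolX_le g w ψ z E hk3 hz hψ E' hmemE τ hτ.2
        ((univ : Finset ((Fin f → ZMod p) × (Fin k → ZMod p))).filter (fun x => IsSol g w z E' τ x))
        (fun x => by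
          rw [Finset.mem_filter]
          exact ⟨fun h => h.2, fun h => ⟨Finset.mem_univ _, h⟩⟩)
      exact_mod_cast h3
    refine h2.trans ?_
    rw [← Finset.mul_sum, Finset.sum_add_distrib, Finset.sum_const, nsmul_eq_mul, mul_one, ← hT]
    have h3 : ((E'.card : ℝ) / (p : ℝ) ^ f + (p : ℝ) ^ f * p / (p : ℝ) ^ k) ≤ 1 + ε := by
      have h4 : (E'.card : ℝ) / (p : ℝ) ^ f ≤ 1 := by
        rw [div_le_one (by positivity)]
        exact hEc
      linarith
    have h5 := mul_le_mul_of_nonneg_right h3 hT0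
    have h6 : (T + ∑ τ ∈ univ.filter (fun τ : Tab p f k => ∑ j, z j • τ.1 j = ψ),
        (((univ : Finset ((Fin f → ZMod p) × (Fin k → ZMod p))).filter
            (fun x => IsSol g w z E' τ x)).card : ℝ)) ≤ (2 + ε) * T := by
      linarith
    calc _ ≤ (p : ℝ) * ((2 + ε) * T) := mul_le_mul_of_nonneg_left h6 hp0.le
      _ = _ := by ring

end Pool.Agent.Q265.EN
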